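import Pool.Agent.helper99.PLR.Spec

/-! # PLR: row CLA -/

set_option autoImplicit false
set_option linter.unusedVariables false

open scoped Classical

namespace Pool.Agent.PLR

open Finset
open Pool.Agent.helper65.HC (V IsEig IsTop lam)
open Pool.Agent.helper9.HQ (Fam Dn E N Le Eig lk)
open Pool.Agent.helper9.HX (Ef)
open Pool.Agent.helper9.HLR (cel Lc)

noncomputable section

theorem CLA_mono {d : ℕ} {U : Fam d} {L L' : ℝ} (h : Le U L) (hL : L ≤ L') : Le U L' := by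
  intro f
  have hN : 0 ≤ N U f := Finset.sum_nonneg fun x _ => sq_nonneg _
  exact (h f).trans (mul_le_mul_of_nonneg_right hL hN)

/-- the mass of the levels `> k` is small -/
theorem CLA_q {F A V kap₁ kap' l' x D q : ℝ} {k : ℕ} (hF : 0 < F) (hk1 : 0 < kap₁) (hk' : 0 < kap')
    (hl' : 0 < l') (hD : 0 < D) (hD2 : D / 16 ≤ l' ^ 2)
    (hA : A * kap₁ ^ (2 * (k + 1)) ≤ V * kap' ^ (2 * (k + 1)))
    (hV : V ≤ (x / 2) ^ 2 * kap₁ ^ (2 * (k + 1)) / (F ^ 2 * 16 ^ (k + 1)) * D ^ (k + 1))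
    (hq : q ≤ F ^ 2 * A / (kap' * l') ^ (2 * (k + 1))) : q ≤ (x / 2) ^ 2 := by
  refine hq.trans ?_
  rw [div_le_iff₀ (by positivity)]
  have e1 : (D / 16) ^ (k + 1) ≤ l' ^ (2 * (k + 1)) := by
    rw [pow_mul]
    exact pow_le_pow_left₀ (by positivity) hD2 _
  have e2 : F ^ 2 * V ≤ (x / 2) ^ 2 * kap₁ ^ (2 * (k + 1)) * (D / 16) ^ (k + 1) := by
    have e3 := mul_le_mul_of_nonneg_left hV (by positivity : 0 ≤ F ^ 2)
    refine e3.trans (le_of_eq ?_)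
    have e16 : (D / 16) ^ (k + 1) = D ^ (k + 1) / 16 ^ (k + 1) := div_pow _ _ _
    rw [e16]
    field_simp
  have p1 : 0 < kap₁ ^ (2 * (k + 1)) := by positivity
  have p2 : 0 < kap' ^ (2 * (k + 1)) := by positivity
  have e4 : F ^ 2 * A * kap₁ ^ (2 * (k + 1)) ≤
      (x / 2) ^ 2 * (kap' * l') ^ (2 * (k + 1)) * kap₁ ^ (2 * (k + 1)) := by
    calc F ^ 2 * A * kap₁ ^ (2 * (k + 1)) = F ^ 2 * (A * kap₁ ^ (2 * (k + 1))) := by ring
      _ ≤ F ^ 2 * (V * kap' ^ (2 * (k + 1))) := mul_le_mul_of_nonneg_left hA (by positivity)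
      _ = F ^ 2 * V * kap' ^ (2 * (k + 1)) := by ring
      _ ≤ (x / 2) ^ 2 * kap₁ ^ (2 * (k + 1)) * (D / 16) ^ (k + 1) * kap' ^ (2 * (k + 1)) :=
          mul_le_mul_of_nonneg_right e2 p2.le
      _ ≤ (x / 2) ^ 2 * kap₁ ^ (2 * (k + 1)) * l' ^ (2 * (k + 1)) * kap' ^ (2 * (k + 1)) :=
          mul_le_mul_of_nonneg_right (mul_le_mul_of_nonneg_left e1 (by positivity)) p2.le
      _ = (x / 2) ^ 2 * (kap' * l') ^ (2 * (k + 1)) * kap₁ ^ (2 * (k + 1)) := by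
          rw [mul_pow]
          ring
  exact le_of_mul_le_mul_right e4 p1

theorem CLA_sq {N₁ q x : ℝ} (hN : 0 ≤ N₁) (hq0 : 0 ≤ q) (h1 : N₁ + q = 1) (hx : 0 ≤ x)
    (hx8 : x ≤ 1 / 8) (hq : q ≤ (x / 2) ^ 2) : √N₁ * √q ≤ x * N₁ := by
  have s1 := Real.sq_sqrt hN
  have s2 := Real.sq_sqrt hq0
  have s3 := Real.sqrt_nonneg N₁
  have s4 := Real.sqrt_nonneg q
  have s5 : √q ≤ x / 2 := by
    rw [← Real.sqrt_sq (by positivity : 0 ≤ x / 2)]
    exact Real.sqrt_le_sqrt hq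
  have s6 : 1 / 2 ≤ √N₁ := by
    apply Real.le_sqrt_of_sq_le
    nlinarith
  calc √N₁ * √q ≤ √N₁ * (x / 2) := mul_le_mul_of_nonneg_left s5 s3
    _ = x * (√N₁ * (1 / 2)) := by ring
    _ ≤ x * (√N₁ * √N₁) := mul_le_mul_of_nonneg_left (mul_le_mul_of_nonneg_left s6 s3) hx
    _ = x * N₁ := by rw [← pow_two, s1]

theorem CLA_end {h c₁ kap x l l' s N₁ B e q : ℝ} (hh : 1 ≤ h) (hs : 0 < s) (hx : 0 < x)
    (hx8 : x ≤ 1 / 8) (hxh : x * (4 * h) = c₁ * kap) (hc : c₁ * kap / 2 ≤ 1 / 2)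
    (hl : (h - c₁ * kap / 2) * s < l) (hl' : (1 - x) * l ≤ l') (hl0 : 0 < l') (hN : 0 < N₁)
    (e1 : l' * N₁ = e + B) (e2 : e ≤ (h - c₁ * kap) * s * N₁) (e3 : B ≤ l' * (√N₁ * √q))
    (e4 : √N₁ * √q ≤ x * N₁) : False := by
  have a1 : l' * N₁ ≤ (h - c₁ * kap) * s * N₁ + l' * (x * N₁) := by
    have := mul_le_mul_of_nonneg_left e4 hl0.le
    linarith
  have a2 : (l' * (1 - x)) * N₁ ≤ ((h - c₁ * kap) * s) * N₁ := by linarith
  have a3 := le_of_mul_le_mul_right a2 hN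
  have a4 : (1 - x) * ((1 - x) * l) ≤ (h - c₁ * kap) * s := by
    have := mul_le_mul_of_nonneg_left hl' (by linarith : 0 ≤ 1 - x)
    linarith
  have a5 : (1 - x) * ((1 - x) * ((h - c₁ * kap / 2) * s)) < (1 - x) * ((1 - x) * l) := by
    have p : 0 < 1 - x := by linarith
    exact mul_lt_mul_of_pos_left (mul_lt_mul_of_pos_left hl p) p
  have a6 : (h - c₁ * kap) * s ≤ (1 - x) * ((1 - x) * ((h - c₁ * kap / 2) * s)) := by
    have b1 : h - c₁ * kap ≤ (1 - x) * ((1 - x) * (h - c₁ * kap / 2)) := by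
      have b2 : 0 ≤ h - c₁ * kap / 2 := by linarith
      have b3 : (1 - x) * ((1 - x) * (h - c₁ * kap / 2)) =
          (h - c₁ * kap / 2) - 2 * x * h + 2 * x * (c₁ * kap / 2) + x ^ 2 * (h - c₁ * kap / 2) := by
        ring
      have b4 : 0 ≤ x ^ 2 * (h - c₁ * kap / 2) := by positivity
      have b5 : 0 ≤ c₁ * kap := by
        rw [← hxh]
        positivity
      have b6 : 0 ≤ 2 * x * (c₁ * kap / 2) := by positivity
      rw [b3]
      linarith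
    have b7 := mul_le_mul_of_nonneg_right b1 hs.le
    linarith
  linarith

theorem CLA (hEV : Pool.Agent.helper9.HQ.EV_stmt) (hHZP : HZP_stmt) (hA1 : A1_stmt)
    (hLCK : LCK_stmt) (hDSK : DSK_stmt) (hBIP : BIP_stmt) (hCTK : CTK_stmt) : CLA_stmt := by
  intro k hk kap hkap hkap1
  have h1 : 1 ≤ hz (k + 1) := (hHZP k).2.2.1 hk
  obtain ⟨c₁, hc₁, hc₁2, hA⟩ := hA1 k
  obtain ⟨h, hh⟩ : ∃ h, h = hz (k + 1) := ⟨_, rfl⟩
  simp only [← hh] at h1 hA ⊢
  have hck : 0 < c₁ * kap := mul_pos hc₁ hkap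
  have hck2 : c₁ * kap ≤ 1 / 2 := by nlinarith
  obtain ⟨x, hx⟩ : ∃ x, x = c₁ * kap / (4 * h) := ⟨_, rfl⟩
  have hx0 : 0 < x := by
    rw [hx]
    positivity
  have hxh : x * (4 * h) = c₁ * kap := by
    rw [hx]
    field_simp
  have hx8 : x ≤ 1 / 8 := by nlinarith
  have hkp : (0 : ℝ) < 4 * ((k : ℝ) + 1) := by positivity
  obtain ⟨kap₁, hkap₁⟩ : ∃ kap₁, kap₁ = x / (4 * ((k : ℝ) + 1)) := ⟨_, rfl⟩
  have hk0 : 0 < kap₁ := by
    rw [hkap₁]
    positivity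
  have hk4 : 4 * ((k : ℝ) + 1) * kap₁ = x := by
    rw [hkap₁]
    field_simp
  have hF : (0 : ℝ) < ((k + 1).factorial : ℝ) := by exact_mod_cast Nat.factorial_pos _
  refine ⟨c₁ * kap / 2, (x / 2) ^ 2 * kap₁ ^ (2 * (k + 1)) / (((k + 1).factorial : ℝ) ^ 2 * 16 ^ (k + 1)),
    by positivity, by linarith, by positivity, 2 * k + 1, ?_⟩
  intro d hd V hV hVc hlev
  have hd0 : (0 : ℝ) < d := by
    have : 0 < d := by omega
    exact_mod_cast this
  have hs : 0 < √(d : ℝ) := Real.sqrt_pos.2 hd0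
  rcases V.eq_empty_or_nonempty with hem | hne
  · intro f
    rw [hem]
    unfold E N
    simp
  obtain ⟨l, f, hl0, hE⟩ := hEV d V hV hne
  by_cases hl : l ≤ (h - c₁ * kap / 2) * √(d : ℝ)
  · exact CLA_mono hE.le hl
  exfalso
  rw [not_le] at hl
  have hlh : √(d : ℝ) / 2 ≤ l := by
    have : √(d : ℝ) / 2 ≤ (h - c₁ * kap / 2) * √(d : ℝ) := by nlinarith
    linarith
  have hlp : 0 < l := by linarith
  obtain ⟨A, l', f', kap', hAV, hAD, hAE, hAl, hk'0, hk'1, hAc, hAlk⟩ :=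
    hDSK d k V l f kap₁ hV hE hlp hk0 (by nlinarith)
  rw [hk4] at hAl
  have hl'4 : √(d : ℝ) / 4 ≤ l' := by nlinarith
  have hl'0 : 0 < l' := by linarith
  have hq1 := hLCK d k A l' f' kap' hAD hAE hk'0 hl'0 hAlk
  have hD2 : (d : ℝ) / 16 ≤ l' ^ 2 := by
    have := Real.sq_sqrt hd0.le
    nlinarith
  have hq2 := CLA_q hF hk0 hk'0 hl'0 hd0 hD2 hAc hVc hq1
  obtain ⟨g1, g2, g3⟩ := hCTK d k A l' f' hAD hAE
  have hN0 : 0 ≤ N (loK k A) f' := Finset.sum_nonneg fun x _ => sq_nonneg _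
  have hq0 : 0 ≤ N (hiK k A) f' := Finset.sum_nonneg fun x _ => sq_nonneg _
  have hsq := CLA_sq hN0 hq0 g3 hx0.le hx8 hq2
  have hN1 : 0 < N (loK k A) f' := by nlinarith
  have hB : Bk k A f' ≤ l' * (√(N (loK k A) f') * √(N (hiK k A) f')) := by
    have b1 := hBIP d k A l' f' f' hAD hl'0.le hAE.le
    have b2 : ∑ y ∈ A.filter (fun y => y.card = k), f' y ^ 2 ≤ N (loK k A) f' := by
      unfold N loK
      refine Finset.sum_le_sum_of_subset_of_nonneg ?_ fun y _ _ => sq_nonneg _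
      intro y hy
      rw [Finset.mem_filter] at hy ⊢
      exact ⟨hy.1, hy.2.le⟩
    have b3 : ∑ y ∈ A.filter (fun y => y.card = k + 1), f' y ^ 2 ≤ N (hiK k A) f' := by
      unfold N hiK
      refine Finset.sum_le_sum_of_subset_of_nonneg ?_ fun y _ _ => sq_nonneg _
      intro y hy
      rw [Finset.mem_filter] at hy ⊢
      exact ⟨hy.1, by omega⟩
    unfold Bk
    refine b1.trans ?_
    rw [mul_assoc]
    exact mul_le_mul_of_nonneg_left (mul_le_mul (Real.sqrt_le_sqrt b2) (Real.sqrt_le_sqrt b3)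
      (Real.sqrt_nonneg _) (Real.sqrt_nonneg _)) hl'0.le
  have hlo : Le (loK k A) ((h - c₁ * kap) * √(d : ℝ)) := by
    refine hA d hd (loK k A) kap ?_ ?_ hkap.le hkap1 ?_
    · intro y hy z hz
      unfold loK at hy ⊢
      rw [Finset.mem_filter] at hy ⊢
      exact ⟨hAD y hy.1 z hz, (Finset.card_le_card hz).trans hy.2⟩
    · intro y hy
      unfold loK at hy
      exact (Finset.mem_filter.1 hy).2
    · refine le_trans ?_ hlev
      have b : lev k (loK k A) ≤ lev k V := by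
        unfold lev loK
        refine Finset.card_le_card ?_
        intro y hy
        rw [Finset.mem_filter, Finset.mem_filter] at hy
        rw [Finset.mem_filter]
        exact ⟨hAV hy.1.1, hy.2⟩
      exact_mod_cast b
  exact CLA_end h1 hs hx0 hx8 hxh (by linarith) hl hAl hl'0 hN1 g1 (hlo f') hB hsq

end

end Pool.Agent.PLR
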